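import Pool.Agent.X91.Haar

/-!
MP_8c5903_an, Q1: there is no constant `η < 1` with `∫_U |T₂ 1_U|² ≤ η |U|` for all planar
sets `U` of finite measure, where `T₂ = T ⊗ T` is the tensor square of the Haar shift.
-/

open MeasureTheory Set
open scoped RealInnerProductSpace

namespace Pool.Agent.Results.MP_8c5903_an.NoUniformBound

open Pool.Agent.X91.Haar

/-- `T h_J` for the one-parameter Haar shift `T` and `J = [k 2^j, (k+1) 2^j)`: if `k` is even then
`J` is a left half, its sibling is `[(k+1) 2^j, (k+2) 2^j)` and `T h_J` is minus the Haar function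
of the sibling; if `k` is odd then `J` is a right half, its sibling is `[(k-1) 2^j, k 2^j)` and
`T h_J` is the Haar function of the sibling. -/
noncomputable def shiftHaar (j k : ℤ) (x : ℝ) : ℝ :=
  if Even k then - haar j (k + 1) x else haar j (k - 1) x

/-- Lebesgue measure on the plane. -/
noncomputable def vol : Measure (ℝ × ℝ) := volume

/-- The Hilbert space `L²(ℝ²)`. -/
def L2 : Type := Lp ℝ 2 vol

noncomputable instance instNACG : NormedAddCommGroup L2 :=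
  (Lp.instNormedAddCommGroup : NormedAddCommGroup (Lp ℝ 2 vol))

noncomputable instance instNS : NormedSpace ℝ L2 :=
  (Lp.instNormedSpace : NormedSpace ℝ (Lp ℝ 2 vol))

/-- A representative of an element of `L²(ℝ²)`. -/
noncomputable def L2.fn (F : L2) : ℝ × ℝ → ℝ := fun x => (show Lp ℝ 2 vol from F) x

/-- `T` is the two-parameter operator `T_{[2]}`: it maps `h_{J₁} ⊗ h_{J₂}` to
`T h_{J₁} ⊗ T h_{J₂}` for all dyadic intervals `J₁`, `J₂`. -/
def IsTensorShift (T : L2 →L[ℝ] L2) : Prop :=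
  ∀ (j₁ k₁ j₂ k₂ : ℤ) (F G : L2),
    (F.fn =ᵐ[vol] fun x => haar j₁ k₁ x.1 * haar j₂ k₂ x.2) →
    (G.fn =ᵐ[vol] fun x => shiftHaar j₁ k₁ x.1 * shiftHaar j₂ k₂ x.2) → T F = G

theorem vol_eq : vol = (volume : Measure ℝ).prod volume := rfl

theorem sq_integrable_haar (j k : ℤ) : Integrable (fun x => haar j k x * haar j k x) := by
  simp_rw [haar_mul_same]
  simp only [if_true]
  exact (integrable_chi j k).const_mul _

theorem memLp_tens (f g : ℝ → ℝ) (hf : Measurable f) (hg : Measurable g)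
    (hf2 : Integrable (fun x => f x * f x)) (hg2 : Integrable (fun x => g x * g x)) :
    MemLp (fun z : ℝ × ℝ => f z.1 * g z.2) 2 vol := by
  rw [memLp_two_iff_integrable_sq]
  · have h := hf2.mul_prod hg2
    rw [← vol_eq] at h
    refine h.congr (Filter.Eventually.of_forall fun z => ?_)
    simp only
    ring
  · exact ((hf.comp measurable_fst).mul (hg.comp measurable_snd)).aestronglyMeasurable

/-- Tensor product Haar functions as elements of `L²`. -/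
noncomputable def E (i : ℤ × ℤ × ℤ × ℤ) : Lp ℝ 2 vol :=
  MemLp.toLp (fun z : ℝ × ℝ => haar i.1 i.2.1 z.1 * haar i.2.2.1 i.2.2.2 z.2)
    (memLp_tens _ _ (measurable_haar _ _) (measurable_haar _ _) (sq_integrable_haar _ _)
      (sq_integrable_haar _ _))

theorem E_coe (i : ℤ × ℤ × ℤ × ℤ) :
    (E i : ℝ × ℝ → ℝ) =ᵐ[vol] fun z => haar i.1 i.2.1 z.1 * haar i.2.2.1 i.2.2.2 z.2 :=
  MemLp.coeFn_toLp _

theorem inner_E (a b : ℤ × ℤ × ℤ × ℤ) : ⟪E a, E b⟫ = if a = b then (1 : ℝ) else 0 := by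
  rw [L2.inner_def]
  have h1 : ∫ z, ⟪(E a : ℝ × ℝ → ℝ) z, (E b : ℝ × ℝ → ℝ) z⟫ ∂vol =
      ∫ z : ℝ × ℝ, (haar a.1 a.2.1 z.1 * haar b.1 b.2.1 z.1) *
        (haar a.2.2.1 a.2.2.2 z.2 * haar b.2.2.1 b.2.2.2 z.2) ∂vol := by
    refine integral_congr_ae ?_
    filter_upwards [E_coe a, E_coe b] with z h1 h2
    rw [h1, h2]
    simp only [RCLike.inner_apply, conj_trivial]
    ring
  rw [h1, vol_eq, integral_prod_mul (fun x => haar a.1 a.2.1 x * haar b.1 b.2.1 x)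
    (fun x => haar a.2.2.1 a.2.2.2 x * haar b.2.2.1 b.2.2.2 x), integral_haar_mul,
    integral_haar_mul]
  obtain ⟨a1, a2, a3, a4⟩ := a
  obtain ⟨b1, b2, b3, b4⟩ := b
  simp only [Prod.mk.injEq]
  split_ifs <;> first | rfl | (exfalso; tauto) | norm_num

theorem orthonormal_E : Orthonormal ℝ E := by
  rw [orthonormal_iff_ite]
  exact inner_E

/-- The sibling of an index. -/
def sib (k : ℤ) : ℤ := if Even k then k + 1 else k - 1

/-- The sign in the Haar shift. -/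
noncomputable def sg (k : ℤ) : ℝ := if Even k then -1 else 1

theorem sg_sq (k : ℤ) : sg k * sg k = 1 := by
  unfold sg
  split_ifs <;> norm_num

theorem shiftHaar_eq (j k : ℤ) (x : ℝ) : shiftHaar j k x = sg k * haar j (sib k) x := by
  unfold shiftHaar sg sib
  split_ifs <;> ring

theorem sib_inj {k l : ℤ} (h : sib k = sib l) : k = l := by
  unfold sib at h
  split_ifs at h with h1 h2 h2
  · omega
  · rw [Int.even_iff] at h1 h2; omega
  · rw [Int.even_iff] at h1 h2; omega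
  · omega

/-- The shifted system. -/
noncomputable def E' (i : ℤ × ℤ × ℤ × ℤ) : Lp ℝ 2 vol :=
  (sg i.2.1 * sg i.2.2.2) • E (i.1, sib i.2.1, i.2.2.1, sib i.2.2.2)

theorem E'_coe (i : ℤ × ℤ × ℤ × ℤ) :
    (E' i : ℝ × ℝ → ℝ) =ᵐ[vol] fun z => shiftHaar i.1 i.2.1 z.1 * shiftHaar i.2.2.1 i.2.2.2 z.2 := by
  unfold E'
  filter_upwards [Lp.coeFn_smul (sg i.2.1 * sg i.2.2.2) (E (i.1, sib i.2.1, i.2.2.1, sib i.2.2.2)),
    E_coe (i.1, sib i.2.1, i.2.2.1, sib i.2.2.2)] with z h1 h2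
  rw [h1, Pi.smul_apply, h2, smul_eq_mul, shiftHaar_eq, shiftHaar_eq]
  ring

theorem orthonormal_E' : Orthonormal ℝ E' := by
  rw [orthonormal_iff_ite]
  intro a b
  unfold E'
  rw [inner_smul_left, inner_smul_right, inner_E, conj_trivial]
  obtain ⟨a1, a2, a3, a4⟩ := a
  obtain ⟨b1, b2, b3, b4⟩ := b
  simp only [Prod.mk.injEq]
  by_cases h : a1 = b1 ∧ a2 = b2 ∧ a3 = b3 ∧ a4 = b4
  · obtain ⟨rfl, rfl, rfl, rfl⟩ := h
    have h1 := sg_sq a2
    have h2 := sg_sq a4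
    simp only [and_self, if_true]
    linear_combination h1 * (sg a4 * sg a4) + h2
  · rw [if_neg h, if_neg, mul_zero, mul_zero]
    rintro ⟨h1, h2, h3, h4⟩
    exact h ⟨h1, sib_inj h2, h3, sib_inj h4⟩

/-- The tensor shift exists. -/
theorem exists_shift : ∃ T : Lp ℝ 2 vol →L[ℝ] Lp ℝ 2 vol, ∀ i, T (E i) = E' i := by
  classical
  let V₁ := orthonormal_E.orthogonalFamily.linearIsometry
  let V₂ := orthonormal_E'.orthogonalFamily.linearIsometry
  have h1 : ∀ i, V₁ (lp.single 2 i (1 : ℝ)) = E i := by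
    intro i
    rw [OrthogonalFamily.linearIsometry_apply_single]
    simp
  have h2 : ∀ i, V₂ (lp.single 2 i (1 : ℝ)) = E' i := by
    intro i
    rw [OrthogonalFamily.linearIsometry_apply_single]
    simp
  refine ⟨V₂.toContinuousLinearMap ∘L (ContinuousLinearMap.adjoint V₁.toContinuousLinearMap), ?_⟩
  intro i
  rw [ContinuousLinearMap.comp_apply]
  have h3 : (ContinuousLinearMap.adjoint V₁.toContinuousLinearMap) (E i) =
      lp.single 2 i (1 : ℝ) := by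
    refine ext_inner_right ℝ fun w => ?_
    rw [ContinuousLinearMap.adjoint_inner_left, ← h1 i]
    exact V₁.inner_map_map _ _
  rw [h3]
  exact h2 i

theorem ext_ae {F G : Lp ℝ 2 vol} {f : ℝ × ℝ → ℝ} (hF : (F : ℝ × ℝ → ℝ) =ᵐ[vol] f)
    (hG : (G : ℝ × ℝ → ℝ) =ᵐ[vol] f) : F = G :=
  Lp.ext (hF.trans hG.symm)

theorem isTensorShift_iff (T : Lp ℝ 2 vol →L[ℝ] Lp ℝ 2 vol) :
    IsTensorShift T ↔ ∀ i, T (E i) = E' i := by
  constructor
  · intro h i
    exact h i.1 i.2.1 i.2.2.1 i.2.2.2 (E i) (E' i) (E_coe i) (E'_coe i)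
  · intro h j₁ k₁ j₂ k₂ F G hF hG
    have e1 : (show Lp ℝ 2 vol from F) = E (j₁, k₁, j₂, k₂) := ext_ae hF (E_coe _)
    have e2 : (show Lp ℝ 2 vol from G) = E' (j₁, k₁, j₂, k₂) := ext_ae hG (E'_coe _)
    have := h (j₁, k₁, j₂, k₂)
    rw [← e1, ← e2] at this
    exact this

/-- The sets: `2^n` diagonal squares of side `2^{-n}`. -/
def U (n : ℕ) : Set (ℝ × ℝ) :=
  ⋃ k ∈ Finset.range (2 ^ n), (dy (-n) k) ×ˢ (dy (-n) k)

theorem measurableSet_U (n : ℕ) : MeasurableSet (U n) :=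
  Finset.measurableSet_biUnion _ fun _ _ => (measurableSet_dy _ _).prod (measurableSet_dy _ _)

theorem disj (n : ℕ) : ∀ k l : ℕ, k ≠ l →
    Disjoint ((dy (-n) (k : ℤ)) ×ˢ (dy (-n) (k : ℤ))) ((dy (-n) (l : ℤ)) ×ˢ (dy (-n) (l : ℤ))) := by
  intro k l hkl
  rw [Set.disjoint_left]
  rintro ⟨x, y⟩ ⟨h1, _⟩ ⟨h2, _⟩
  rw [mem_dy] at h1 h2
  apply hkl
  have : (k : ℤ) = l := by rw [← h1, ← h2]
  exact_mod_cast this

theorem vol_U (n : ℕ) : vol (U n) = ENNReal.ofReal ((2 : ℝ) ^ (-n : ℤ)) := by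
  unfold U
  rw [measure_biUnion_finset]
  · have h : ∀ k : ℕ, vol ((dy (-n) (k : ℤ)) ×ˢ (dy (-n) (k : ℤ))) =
        ENNReal.ofReal ((2 : ℝ) ^ (-n : ℤ) * (2 : ℝ) ^ (-n : ℤ)) := by
      intro k
      rw [vol_eq, Measure.prod_prod, volume_dy, ← ENNReal.ofReal_mul (two_zpow_pos _).le]
    rw [Finset.sum_congr rfl fun k _ => h k, Finset.sum_const, Finset.card_range, nsmul_eq_mul]
    rw [show ((2 ^ n : ℕ) : ENNReal) = ENNReal.ofReal ((2 : ℝ) ^ n) by
      rw [ENNReal.ofReal_pow (by norm_num)]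
      push_cast
      norm_num]
    rw [← ENNReal.ofReal_mul (by positivity)]
    congr 1
    rw [zpow_neg, zpow_natCast]
    field_simp
  · intro k _ l _ hkl
    exact disj n k l hkl
  · intro k _
    exact (measurableSet_dy _ _).prod (measurableSet_dy _ _)

theorem indicator_U (n : ℕ) (z : ℝ × ℝ) : (U n).indicator (1 : ℝ × ℝ → ℝ) z =
    ∑ k ∈ Finset.range (2 ^ n), chi (-n) k z.1 * chi (-n) k z.2 := by
  classical
  unfold U
  rw [Finset.indicator_biUnion_apply]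
  · refine Finset.sum_congr rfl fun k _ => ?_
    unfold chi
    by_cases h1 : z.1 ∈ dy (-n) k <;> by_cases h2 : z.2 ∈ dy (-n) k <;>
      simp [Set.indicator, Set.mem_prod, h1, h2]
  · intro k _ l _ hkl
    exact disj n k l hkl

/-- The indicator of `U n` in `L²`. -/
noncomputable def u (n : ℕ) : Lp ℝ 2 vol :=
  indicatorConstLp 2 (measurableSet_U n) (by rw [vol_U]; exact ENNReal.ofReal_ne_top) (1 : ℝ)

theorem u_coe (n : ℕ) : (u n : ℝ × ℝ → ℝ) =ᵐ[vol] (U n).indicator 1 := indicatorConstLp_coeFn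

/-- The diagonal sum of Haar functions at scale `2^{-n}`. -/
noncomputable def D (n : ℕ) : Lp ℝ 2 vol := ∑ k ∈ Finset.range (2 ^ n), E (-n, k, -n, k)

theorem D_coe (n : ℕ) : (D n : ℝ × ℝ → ℝ) =ᵐ[vol] fun z =>
    ∑ k ∈ Finset.range (2 ^ n), haar (-n) k z.1 * haar (-n) k z.2 := by
  have h1 : ∀ s : Finset ℕ, ((∑ k ∈ s, E (-n, k, -n, k) : Lp ℝ 2 vol) : ℝ × ℝ → ℝ) =ᵐ[vol]
      fun z => ∑ k ∈ s, haar (-n) k z.1 * haar (-n) k z.2 := by
    intro s
    classical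
    induction s using Finset.induction_on with
    | empty =>
      simp only [Finset.sum_empty]
      exact Lp.coeFn_zero _ _ _
    | insert a s ha ih =>
      rw [Finset.sum_insert ha]
      filter_upwards [Lp.coeFn_add (E (-n, a, -n, a)) (∑ k ∈ s, E (-n, k, -n, k)), ih,
        E_coe (-n, a, -n, a)] with z h1 h2 h3
      rw [h1, Pi.add_apply, h2, h3, Finset.sum_insert ha]
  exact h1 _

theorem sum_two_mul {M : Type*} [AddCommMonoid M] (a : ℕ → M) (N : ℕ) :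
    ∑ k ∈ Finset.range (2 * N), a k = ∑ m ∈ Finset.range N, (a (2 * m) + a (2 * m + 1)) := by
  induction N with
  | zero => simp
  | succ N ih =>
    rw [show 2 * (N + 1) = 2 * N + 1 + 1 by ring, Finset.sum_range_succ, Finset.sum_range_succ, ih,
      Finset.sum_range_succ, add_assoc]

theorem u_succ (n : ℕ) : u (n + 1) = (1 / 2 : ℝ) • (u n + ((2 : ℝ) ^ (-n : ℤ)) • D n) := by
  refine Lp.ext ?_
  filter_upwards [u_coe (n + 1), u_coe n, D_coe n, Lp.coeFn_smul (1 / 2 : ℝ)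
    (u n + ((2 : ℝ) ^ (-n : ℤ)) • D n), Lp.coeFn_add (u n) (((2 : ℝ) ^ (-n : ℤ)) • D n),
    Lp.coeFn_smul ((2 : ℝ) ^ (-n : ℤ)) (D n)] with z h1 h2 h3 h4 h5 h6
  rw [h1, h4, Pi.smul_apply, h5, Pi.add_apply, h6, Pi.smul_apply, h2, h3, indicator_U, indicator_U,
    pow_succ, mul_comm (2 ^ n) 2, sum_two_mul, smul_eq_mul, smul_eq_mul, Finset.mul_sum,
    ← Finset.sum_add_distrib, Finset.mul_sum]
  refine Finset.sum_congr rfl fun k _ => ?_
  have e1 := chi_split (-n) k z.1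
  have e2 := chi_split (-n) k z.2
  have e3 : (-((n + 1 : ℕ) : ℤ)) = -n - 1 := by push_cast; ring
  have hs := sqrt_inv_sq (-n)
  have hp := (two_zpow_pos (-n)).ne'
  rw [e1, e2, e3]
  unfold haar
  push_cast
  have hs' : (2 : ℝ) ^ (-n : ℤ) * ((Real.sqrt (2 ^ (-n : ℤ)))⁻¹ * (Real.sqrt (2 ^ (-n : ℤ)))⁻¹) = 1 := by
    rw [hs, mul_inv_cancel₀ hp]
  linear_combination (-(1 / 2) * (chi (-n - 1) (2 * k + 1) z.1 - chi (-n - 1) (2 * k) z.1) *
    (chi (-n - 1) (2 * k + 1) z.2 - chi (-n - 1) (2 * k) z.2)) * hs'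

theorem T_D (T : Lp ℝ 2 vol →L[ℝ] Lp ℝ 2 vol) (hT : ∀ i, T (E i) = E' i) (n : ℕ) :
    T (D (n + 1)) = D (n + 1) := by
  unfold D
  rw [pow_succ, mul_comm (2 ^ n) 2, sum_two_mul, map_sum]
  refine Finset.sum_congr rfl fun k _ => ?_
  rw [map_add, hT, hT, add_comm]
  have h1 : Even (((2 * k : ℕ) : ℤ)) := ⟨k, by push_cast; ring⟩
  have h2 : ¬ Even (((2 * k + 1 : ℕ) : ℤ)) := by
    rw [Int.even_iff]; push_cast; omega
  congr 1
  · unfold E' sib sg
    simp only [if_neg h2]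
    have e : ((2 * k + 1 : ℕ) : ℤ) - 1 = ((2 * k : ℕ) : ℤ) := by push_cast; ring
    rw [e]
    norm_num
  · unfold E' sib sg
    simp only [if_pos h1]
    have e : ((2 * k : ℕ) : ℤ) + 1 = ((2 * k + 1 : ℕ) : ℤ) := by push_cast; ring
    rw [e]
    norm_num

theorem v_formula (T : Lp ℝ 2 vol →L[ℝ] Lp ℝ 2 vol) (hT : ∀ i, T (E i) = E' i) (n : ℕ) :
    T (u (n + 1)) - u (n + 1) = ((1 / 2 : ℝ) ^ n) • (T (u 1) - u 1) := by
  induction n with
  | zero => simp
  | succ n ih =>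
    rw [u_succ (n + 1), map_smul, map_add, map_smul, T_D T hT n, ← smul_sub, add_sub_add_right_eq_sub,
      ih, smul_smul, pow_succ, mul_comm]

theorem main_ineq (T : Lp ℝ 2 vol →L[ℝ] Lp ℝ 2 vol) (n : ℕ) :
    (2 : ℝ) ^ (-n : ℤ) - 2 * (Real.sqrt ((2 : ℝ) ^ (-n : ℤ)) * ‖T (u n) - u n‖) ≤
      ∫ x in U n, (T (u n) : ℝ × ℝ → ℝ) x ^ 2 ∂vol := by
  have hfin : vol (U n) ≠ ⊤ := by rw [vol_U]; exact ENNReal.ofReal_ne_top
  have hvol : (vol (U n)).toReal = (2 : ℝ) ^ (-n : ℤ) := by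
    rw [vol_U, ENNReal.toReal_ofReal (two_zpow_pos _).le]
  have h1 : ⟪u n, T (u n)⟫ = ∫ x in U n, (T (u n) : ℝ × ℝ → ℝ) x ∂vol :=
    L2.inner_indicatorConstLp_one _ _ _
  have hnorm : ‖u n‖ = Real.sqrt ((2 : ℝ) ^ (-n : ℤ)) := by
    unfold u
    rw [norm_indicatorConstLp (by norm_num) (by norm_num), norm_one, one_mul, Measure.real, hvol,
      Real.sqrt_eq_rpow]
    norm_num
  have h2 : ⟪u n, u n⟫ = (2 : ℝ) ^ (-n : ℤ) := by
    rw [real_inner_self_eq_norm_sq, hnorm, Real.sq_sqrt (two_zpow_pos _).le]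
  have h3 : ⟪u n, T (u n)⟫ = (2 : ℝ) ^ (-n : ℤ) + ⟪u n, T (u n) - u n⟫ := by
    rw [inner_sub_right, h2]
    ring
  have h4 : -(Real.sqrt ((2 : ℝ) ^ (-n : ℤ)) * ‖T (u n) - u n‖) ≤ ⟪u n, T (u n) - u n⟫ := by
    rw [← hnorm]
    have := abs_real_inner_le_norm (u n) (T (u n) - u n)
    have := neg_abs_le ⟪u n, T (u n) - u n⟫
    linarith
  have hfm : IsFiniteMeasure (vol.restrict (U n)) := ⟨by
    rw [Measure.restrict_apply_univ]
    exact hfin.lt_top⟩
  have hint : IntegrableOn (T (u n) : ℝ × ℝ → ℝ) (U n) vol :=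
    ((Lp.memLp (T (u n))).restrict (U n)).integrable (by norm_num)
  have hint2 : Integrable (fun x => (T (u n) : ℝ × ℝ → ℝ) x ^ 2) vol :=
    (Lp.memLp (T (u n))).integrable_sq
  have h5 : ∫ x in U n, (2 * (T (u n) : ℝ × ℝ → ℝ) x - 1) ∂vol ≤
      ∫ x in U n, (T (u n) : ℝ × ℝ → ℝ) x ^ 2 ∂vol := by
    refine setIntegral_mono ?_ hint2.integrableOn ?_
    · exact (hint.const_mul 2).sub (integrableOn_const hfin)
    · intro x
      have := sq_nonneg ((T (u n) : ℝ × ℝ → ℝ) x - 1)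
      simp only
      nlinarith
  rw [integral_sub (hint.const_mul 2) (integrableOn_const hfin), integral_const_mul, ← h1,
    setIntegral_const, smul_eq_mul, mul_one, Measure.real, hvol] at h5
  linarith

/-- **Answer to Q1 (negative).** The tensor square `T_{[2]}` of the Haar shift exists, and for
every `η < 1` there is a measurable planar set `U` of finite positive measure with
`∫_U |T_{[2]} 1_U|² > η |U|`. -/
theorem result :
    (∃ T : L2 →L[ℝ] L2, IsTensorShift T) ∧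
    ∀ T : L2 →L[ℝ] L2, IsTensorShift T → ∀ η : ℝ, η < 1 →
      ∃ U : Set (ℝ × ℝ), MeasurableSet U ∧ vol U ≠ 0 ∧ vol U ≠ ⊤ ∧
        ∀ F : L2, (F.fn =ᵐ[vol] U.indicator 1) →
          η * (vol U).toReal < ∫ x in U, (T F).fn x ^ 2 ∂vol := by
  refine ⟨?_, ?_⟩
  · obtain ⟨T, hT⟩ := exists_shift
    exact ⟨T, (isTensorShift_iff T).mpr hT⟩
  intro T' hT' η hη
  obtain ⟨T, hTT⟩ : ∃ T : Lp ℝ 2 vol →L[ℝ] Lp ℝ 2 vol, T = T' := ⟨T', rfl⟩
  have hT : ∀ i, T (E i) = E' i := by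
    rw [hTT]
    exact (isTensorShift_iff T').mp hT'
  set c := ‖T (u 1) - u 1‖ with hc
  -- choose `n` with `4 c 2^{-n/2} < 1 - η`
  have hlim : Filter.Tendsto (fun n : ℕ => (2 * c) * (Real.sqrt (1 / 2) ^ n)) Filter.atTop
      (nhds ((2 * c) * 0)) := by
    refine (tendsto_pow_atTop_nhds_zero_of_lt_one (Real.sqrt_nonneg _) ?_).const_mul _
    rw [Real.sqrt_lt' one_pos]
    norm_num
  rw [mul_zero] at hlim
  obtain ⟨n, hn⟩ := ((hlim.eventually (gt_mem_nhds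
    (show (0 : ℝ) < (1 - η) * Real.sqrt (1 / 2) by
      have : 0 < 1 - η := by linarith
      positivity))).exists)
  refine ⟨U (n + 1), measurableSet_U _, ?_, ?_, ?_⟩
  · rw [vol_U]
    simp only [ne_eq, ENNReal.ofReal_eq_zero, not_le]
    exact two_zpow_pos _
  · rw [vol_U]
    exact ENNReal.ofReal_ne_top
  intro F hF
  have e1 : (show Lp ℝ 2 vol from F) = u (n + 1) := ext_ae hF (u_coe _)
  have e2 : (T' F).fn = (T (u (n + 1)) : ℝ × ℝ → ℝ) := by
    rw [← e1, hTT]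
    rfl
  have h := main_ineq T (n + 1)
  rw [v_formula T hT n, norm_smul, ← hc] at h
  rw [e2, vol_U, ENNReal.toReal_ofReal (two_zpow_pos _).le]
  refine lt_of_lt_of_le ?_ h
  set q := Real.sqrt (1 / 2) with hq
  have hq0 : 0 < q := Real.sqrt_pos.mpr (by norm_num)
  have hqq : q * q = 1 / 2 := Real.mul_self_sqrt (by norm_num)
  have e3 : (2 : ℝ) ^ (-((n + 1 : ℕ) : ℤ)) = (q ^ (n + 1)) * (q ^ (n + 1)) := by
    rw [zpow_neg, zpow_natCast, ← mul_pow, hqq, one_div, inv_pow]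
  have e4 : Real.sqrt ((2 : ℝ) ^ (-((n + 1 : ℕ) : ℤ))) = q ^ (n + 1) := by
    rw [e3]
    exact Real.sqrt_mul_self (by positivity)
  have e5 : ‖((1 / 2 : ℝ) ^ n)‖ = q ^ n * q ^ n := by
    rw [Real.norm_of_nonneg (by positivity), ← hqq, mul_pow]
  rw [e4, e5, e3]
  have hqn : 0 < q ^ n * q ^ n * q := by positivity
  have := mul_lt_mul_of_pos_left hn hqn
  rw [pow_succ]
  nlinarith [this]

end Pool.Agent.Results.MP_8c5903_an.NoUniformBound
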